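import Pool.Agent.R853.Avg.Pde4
import Pool.Agent.R853.Avg.Stmt

/-!
The heat equation `y_t + α(ω) (-Δ)^γ y = χ_{G₀} u` with `γ ≤ 1/2` is never null controllable in
average, whatever the random diffusivity `α ≥ 0` with `E α² < ∞`.
-/

set_option autoImplicit false

namespace Pool.Agent.Results.MP_966485_an.NoAveragedControl

open MeasureTheory
open Pool.Agent.R853.Avg

universe u v

theorem result {E : Type v} [NormedAddCommGroup E] [InnerProductSpace ℝ E]
    [FiniteDimensional ℝ E] [MeasurableSpace E] [BorelSpace E]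
    (G G0 : Set E) (hG : IsOpen G)
    (_hGb : Bornology.IsBounded G) (hG0 : IsOpen G0) (_hne : G0.Nonempty) (hsub : G0 ⊆ G)
    (hint : (interior (G \ closure G0)).Nonempty) (T : ℝ) (hT : 0 < T)
    (e : HilbertBasis ℕ ℝ (L2 G ℝ)) (lam : ℕ → ℝ) (he : DirichletBasis G e lam)
    (Ω : Type u) [MeasurableSpace Ω] (P : Measure Ω) [IsProbabilityMeasure P] (α : Ω → ℝ)
    (hα : Measurable α) (hα0 : ∀ ω, 0 ≤ α ω) (hα2 : Integrable (fun ω => α ω ^ 2) P)
    (γ : ℝ) (hγ : 0 < γ) (hγ1 : γ ≤ 1 / 2) :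
    ¬ NullControllableInAverage P α e lam γ T (ctrlSpace G G0) := by
  have he' : IsDirichletBasis G e lam := he
  exact main hG hG0 hsub hint he' hα hα0 hα2 hγ hγ1 hT

end Pool.Agent.Results.MP_966485_an.NoAveragedControl
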